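import Pool.Agent.H586.AF.D

/-!
# Project AG, task LP: the one-loop formula from the moments, general form

Adapted from the file `Pool/Agent/H71/AF/LP.lean` of helper71.
-/

set_option autoImplicit false
set_option linter.unusedVariables false

open MeasureTheory Matrix Finset Filter Topology

namespace Pool.Agent.H737.AG

open Pool.Agent.H586.AF.GG

noncomputable section

section gen

variable {Ω : Type} [MeasurableSpace Ω] {P : Measure Ω} [IsProbabilityMeasure P]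

theorem int_bd {g : Ω → ℝ} (hg : Measurable g) (c : ℝ) (h : ∀ ω, |g ω| ≤ c) : Integrable g P :=
  Integrable.of_bound hg.aestronglyMeasurable c (Filter.Eventually.of_forall h)

theorem abs_int_le (g h : Ω → ℝ) (hh : Integrable h P) (H : ∀ ω, |g ω| ≤ h ω) :
    |∫ ω, g ω ∂P| ≤ ∫ ω, h ω ∂P := by
  have h1 : ∀ᵐ ω ∂P, ‖g ω‖ ≤ h ω := Filter.Eventually.of_forall fun ω => by
    rw [Real.norm_eq_abs]
    exact H ω
  have h2 := norm_integral_le_of_norm_le hh h1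
  rw [Real.norm_eq_abs] at h2
  exact h2

theorem mom (f : Ω → ℝ) (hf : Measurable f) (K M p : ℝ) (hK : 0 ≤ K) (hM : 0 ≤ M)
    (h0 : ∀ ω, 0 ≤ f ω) (h1 : ∀ ω, f ω ≤ K) (hp : P.real {ω | M < f ω} ≤ p) (j : ℕ) :
    ∫ ω, f ω ^ j ∂P ≤ M ^ j + K ^ j * p := by
  have hs : MeasurableSet {ω | M < f ω} := measurableSet_lt measurable_const hf
  have hi : Integrable (fun ω => f ω ^ j) P := int_bd (hf.pow_const j) (K ^ j) fun ω => by
    rw [abs_of_nonneg (pow_nonneg (h0 ω) j)]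
    exact pow_le_pow_left₀ (h0 ω) (h1 ω) j
  have hi1 : Integrable ({ω | M < f ω}.indicator fun _ => K ^ j) P :=
    (integrable_const (K ^ j)).indicator hs
  have hi2 : Integrable (fun ω => M ^ j + {ω | M < f ω}.indicator (fun _ => K ^ j) ω) P :=
    (integrable_const (M ^ j)).add hi1
  have h2 : ∫ ω, f ω ^ j ∂P ≤ ∫ ω, (M ^ j + {ω | M < f ω}.indicator (fun _ => K ^ j) ω) ∂P := by
    refine integral_mono hi hi2 fun ω => ?_
    show f ω ^ j ≤ M ^ j + {ω | M < f ω}.indicator (fun _ => K ^ j) ω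
    by_cases hω : M < f ω
    · rw [Set.indicator_of_mem (by exact hω)]
      have := pow_le_pow_left₀ (h0 ω) (h1 ω) j
      have := pow_nonneg hM j
      linarith
    · rw [Set.indicator_of_notMem (by exact hω)]
      have := pow_le_pow_left₀ (h0 ω) (not_lt.1 hω) j
      linarith
  have h3 : ∫ ω, (M ^ j + {ω | M < f ω}.indicator (fun _ => K ^ j) ω) ∂P =
      M ^ j + K ^ j * P.real {ω | M < f ω} := by
    rw [integral_add (integrable_const _) hi1, integral_indicator_const _ hs]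
    simp [mul_comm]
  rw [h3] at h2
  have h4 : K ^ j * P.real {ω | M < f ω} ≤ K ^ j * p :=
    mul_le_mul_of_nonneg_left hp (pow_nonneg hK j)
  linarith

end gen

section sums

variable {Λ : Type} [Fintype Λ]

theorem tr2 (C A : Matrix Λ Λ ℝ) (hC : C.IsSymm) :
    (C * A).trace = ∑ p : Λ × Λ, A p.1 p.2 * C p.1 p.2 := by
  rw [Fintype.sum_prod_type]
  simp only [Matrix.trace, Matrix.diag, Matrix.mul_apply]
  rw [Finset.sum_comm]
  refine Finset.sum_congr rfl fun x _ => Finset.sum_congr rfl fun y _ => ?_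
  rw [hC.apply x y]
  ring

theorem tr4 (C B : Matrix Λ Λ ℝ) (hC : C.IsSymm) (hB : Bᵀ = -B) :
    (C * B * C * B).trace = -∑ p : Λ × Λ, ∑ q : Λ × Λ,
      B p.1 p.2 * B q.1 q.2 * (C p.1 q.1 * C p.2 q.2) := by
  have hB' : ∀ i j, B i j = -B j i := by
    intro i j
    have h := congrFun (congrFun hB j) i
    simpa using h
  rw [Finset.sum_comm]
  have e1 : (C * B * C * B).trace = ∑ z, ∑ w, (C * B * C) z w * B w z := by
    simp only [Matrix.trace, Matrix.diag]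
    refine Finset.sum_congr rfl fun z _ => ?_
    exact Matrix.mul_apply
  have e2 : ∀ z w, (C * B * C) z w = ∑ p : Λ × Λ, C z p.1 * B p.1 p.2 * C p.2 w := by
    intro z w
    rw [Matrix.mul_apply, Fintype.sum_prod_type, Finset.sum_comm]
    refine Finset.sum_congr rfl fun y _ => ?_
    rw [Matrix.mul_apply, Finset.sum_mul]
  rw [e1, Fintype.sum_prod_type, ← Finset.sum_neg_distrib]
  refine Finset.sum_congr rfl fun z _ => ?_
  rw [← Finset.sum_neg_distrib]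
  refine Finset.sum_congr rfl fun w _ => ?_
  rw [e2, Finset.sum_mul, ← Finset.sum_neg_distrib]
  refine Finset.sum_congr rfl fun p _ => ?_
  rw [hB' w z, hC.apply p.1 z]
  ring

end sums

section main

variable {Ω : Type} [MeasurableSpace Ω] {P : Measure Ω} [IsProbabilityMeasure P]
  {I : Type} [Fintype I]

/-- the quadratic forms -/
def QQ (φ : I → Ω → ℝ) (W : I → I → ℝ) (ω : Ω) : ℝ :=
  ∑ p : I × I, W p.1 p.2 * (φ p.1 ω * φ p.2 ω)

theorem QQ_meas (φ : I → Ω → ℝ) (hφ : ∀ i, Measurable (φ i)) (W : I → I → ℝ) :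
    Measurable (QQ φ W) := by
  unfold QQ
  exact Finset.measurable_fun_sum _ fun p _ =>
    ((hφ _).mul (hφ _)).const_mul _

omit [MeasurableSpace Ω] in
theorem QQ_le (φ : I → Ω → ℝ) (f : Ω → ℝ) (h1 : ∀ i ω, |φ i ω| ≤ f ω)
    (W : I → I → ℝ) (K : ℝ) (hK : 1 ≤ K) (hc : (Fintype.card I : ℝ) ≤ K)
    (hN : ∀ i j, |W i j| ≤ K) (ω : Ω) : |QQ φ W ω| ≤ K ^ 3 * f ω ^ 2 := by
  unfold QQ
  refine (Finset.abs_sum_le_sum_abs _ _).trans ?_
  have h2 : ∀ p ∈ (Finset.univ : Finset (I × I)),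
      |W p.1 p.2 * (φ p.1 ω * φ p.2 ω)| ≤ K * f ω ^ 2 := by
    intro p _
    rw [abs_mul, abs_mul]
    have h3 : |φ p.1 ω| * |φ p.2 ω| ≤ f ω * f ω :=
      mul_le_mul (h1 _ ω) (h1 _ ω) (abs_nonneg _) ((abs_nonneg _).trans (h1 p.1 ω))
    calc |W p.1 p.2| * (|φ p.1 ω| * |φ p.2 ω|) ≤ K * (f ω * f ω) :=
          mul_le_mul (hN _ _) h3 (mul_nonneg (abs_nonneg _) (abs_nonneg _)) (by linarith)
      _ = K * f ω ^ 2 := by ring
  refine (Finset.sum_le_card_nsmul _ _ _ h2).trans ?_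
  rw [nsmul_eq_mul, Finset.card_univ, Fintype.card_prod, Nat.cast_mul]
  have hc0 : (0 : ℝ) ≤ (Fintype.card I : ℝ) := Nat.cast_nonneg _
  have h4 : (Fintype.card I : ℝ) * (Fintype.card I : ℝ) ≤ K * K :=
    mul_le_mul hc hc hc0 (by linarith)
  calc (Fintype.card I : ℝ) * (Fintype.card I : ℝ) * (K * f ω ^ 2) ≤ K * K * (K * f ω ^ 2) :=
        mul_le_mul_of_nonneg_right h4 (by positivity)
    _ = K ^ 3 * f ω ^ 2 := by ring

omit [Fintype I] in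
theorem phi_int (φ : I → Ω → ℝ) (hφ : ∀ i, Measurable (φ i)) (K : ℝ) (hK : 1 ≤ K)
    (h1 : ∀ i ω, |φ i ω| ≤ K) (x y : I) : Integrable (fun ω => φ x ω * φ y ω) P := by
  refine int_bd ((hφ x).mul (hφ y)) (K * K) fun ω => ?_
  rw [abs_mul]
  exact mul_le_mul (h1 _ ω) (h1 _ ω) (abs_nonneg _) (by linarith)

theorem QQ_E (φ : I → Ω → ℝ) (hφ : ∀ i, Measurable (φ i)) (K β ε : ℝ) (hK : 1 ≤ K)
    (hε : 0 ≤ ε)
    (h1 : ∀ i ω, |φ i ω| ≤ K) (hc : (Fintype.card I : ℝ) ≤ K) (Ct W : I → I → ℝ)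
    (hN : ∀ i j, |W i j| ≤ K)
    (h2 : ∀ x y : I, |β * ∫ ω, φ x ω * φ y ω ∂P - Ct x y| ≤ ε) :
    |β * ∫ ω, QQ φ W ω ∂P - ∑ p : I × I, W p.1 p.2 * Ct p.1 p.2| ≤ K ^ 3 * ε := by
  have e1 : ∫ ω, QQ φ W ω ∂P =
      ∑ p : I × I, W p.1 p.2 * ∫ ω, φ p.1 ω * φ p.2 ω ∂P := by
    unfold QQ
    rw [integral_finsetSum _ fun p _ => (phi_int φ hφ K hK h1 _ _).const_mul _]
    refine Finset.sum_congr rfl fun p _ => ?_
    exact integral_const_mul _ _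
  rw [e1, Finset.mul_sum, ← Finset.sum_sub_distrib]
  refine (Finset.abs_sum_le_sum_abs _ _).trans ?_
  have h3 : ∀ p ∈ (Finset.univ : Finset (I × I)),
      |β * (W p.1 p.2 * ∫ ω, φ p.1 ω * φ p.2 ω ∂P) - W p.1 p.2 * Ct p.1 p.2| ≤ K * ε := by
    intro p _
    have e : β * (W p.1 p.2 * ∫ ω, φ p.1 ω * φ p.2 ω ∂P) - W p.1 p.2 * Ct p.1 p.2 =
        W p.1 p.2 * (β * (∫ ω, φ p.1 ω * φ p.2 ω ∂P) - Ct p.1 p.2) := by ring
    rw [e, abs_mul]
    exact mul_le_mul (hN _ _) (h2 p.1 p.2) (abs_nonneg _) (by linarith)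
  refine (Finset.sum_le_card_nsmul _ _ _ h3).trans ?_
  rw [nsmul_eq_mul, Finset.card_univ, Fintype.card_prod, Nat.cast_mul]
  have hc0 : (0 : ℝ) ≤ (Fintype.card I : ℝ) := Nat.cast_nonneg _
  have h4 : (Fintype.card I : ℝ) * (Fintype.card I : ℝ) ≤ K * K :=
    mul_le_mul hc hc hc0 (by linarith)
  calc (Fintype.card I : ℝ) * (Fintype.card I : ℝ) * (K * ε) ≤ K * K * (K * ε) :=
        mul_le_mul_of_nonneg_right h4 (by positivity)
    _ = K ^ 3 * ε := by ring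

theorem QQ_E4 (φ : I → Ω → ℝ) (hφ : ∀ i, Measurable (φ i)) (K β ε : ℝ) (hK : 1 ≤ K)
    (hε : 0 ≤ ε)
    (h1 : ∀ i ω, |φ i ω| ≤ K) (hc : (Fintype.card I : ℝ) ≤ K) (Ct W : I → I → ℝ)
    (hN : ∀ i j, |W i j| ≤ K)
    (h2 : ∀ x y z w : I, |β ^ 2 * ∫ ω, φ x ω * φ y ω * φ z ω * φ w ω ∂P -
      (Ct x y * Ct z w + Ct x z * Ct y w + Ct x w * Ct y z)| ≤ ε) :
    |β ^ 2 * ∫ ω, QQ φ W ω ^ 2 ∂P -
      ∑ p : I × I, ∑ q : I × I, W p.1 p.2 * W q.1 q.2 *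
        (Ct p.1 p.2 * Ct q.1 q.2 + Ct p.1 q.1 * Ct p.2 q.2 + Ct p.1 q.2 * Ct p.2 q.1)| ≤
      K ^ 6 * ε := by
  have hint : ∀ x y z w : I, Integrable (fun ω => φ x ω * φ y ω * φ z ω * φ w ω) P := by
    intro x y z w
    refine int_bd ((((hφ x).mul (hφ y)).mul (hφ z)).mul (hφ w)) (K * K * K * K) fun ω => ?_
    rw [abs_mul, abs_mul, abs_mul]
    have hx := h1 x ω
    have hy := h1 y ω
    have hz := h1 z ω
    have hw := h1 w ω
    have hK0 : 0 ≤ K := by linarith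
    have s1 : |φ x ω| * |φ y ω| ≤ K * K := mul_le_mul hx hy (abs_nonneg _) hK0
    have s2 : |φ x ω| * |φ y ω| * |φ z ω| ≤ K * K * K :=
      mul_le_mul s1 hz (abs_nonneg _) (by positivity)
    exact mul_le_mul s2 hw (abs_nonneg _) (by positivity)
  have e0 : ∀ ω, QQ φ W ω ^ 2 = ∑ p : I × I, ∑ q : I × I, (W p.1 p.2 * W q.1 q.2) *
      (φ p.1 ω * φ p.2 ω * φ q.1 ω * φ q.2 ω) := by
    intro ω
    unfold QQ
    rw [sq, Finset.sum_mul_sum]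
    refine Finset.sum_congr rfl fun p _ => Finset.sum_congr rfl fun q _ => ?_
    ring
  have e1 : ∫ ω, QQ φ W ω ^ 2 ∂P = ∑ p : I × I, ∑ q : I × I, (W p.1 p.2 * W q.1 q.2) *
      ∫ ω, φ p.1 ω * φ p.2 ω * φ q.1 ω * φ q.2 ω ∂P := by
    simp only [e0]
    rw [integral_finsetSum _ fun p _ => integrable_finsetSum _ fun q _ => (hint _ _ _ _).const_mul _]
    refine Finset.sum_congr rfl fun p _ => ?_
    rw [integral_finsetSum _ fun q _ => (hint _ _ _ _).const_mul _]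
    refine Finset.sum_congr rfl fun q _ => ?_
    exact integral_const_mul _ _
  rw [e1, Finset.mul_sum, ← Finset.sum_sub_distrib]
  have hK0 : 0 ≤ K := by linarith
  have hc0 : (0 : ℝ) ≤ (Fintype.card I : ℝ) := Nat.cast_nonneg _
  have h4 : (Fintype.card I : ℝ) * (Fintype.card I : ℝ) ≤ K * K :=
    mul_le_mul hc hc hc0 hK0
  have h3 : ∀ p ∈ (Finset.univ : Finset (I × I)),
      |β ^ 2 * ∑ q : I × I, (W p.1 p.2 * W q.1 q.2) *
        ∫ ω, φ p.1 ω * φ p.2 ω * φ q.1 ω * φ q.2 ω ∂P -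
        ∑ q : I × I, W p.1 p.2 * W q.1 q.2 *
        (Ct p.1 p.2 * Ct q.1 q.2 + Ct p.1 q.1 * Ct p.2 q.2 + Ct p.1 q.2 * Ct p.2 q.1)| ≤
        K * K * (K * K * ε) := by
    intro p _
    rw [Finset.mul_sum, ← Finset.sum_sub_distrib]
    refine (Finset.abs_sum_le_sum_abs _ _).trans ?_
    have h5 : ∀ q ∈ (Finset.univ : Finset (I × I)),
        |β ^ 2 * ((W p.1 p.2 * W q.1 q.2) *
          ∫ ω, φ p.1 ω * φ p.2 ω * φ q.1 ω * φ q.2 ω ∂P) -
        W p.1 p.2 * W q.1 q.2 *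
        (Ct p.1 p.2 * Ct q.1 q.2 + Ct p.1 q.1 * Ct p.2 q.2 + Ct p.1 q.2 * Ct p.2 q.1)| ≤
        K * K * ε := by
      intro q _
      have e : β ^ 2 * ((W p.1 p.2 * W q.1 q.2) *
          ∫ ω, φ p.1 ω * φ p.2 ω * φ q.1 ω * φ q.2 ω ∂P) -
          W p.1 p.2 * W q.1 q.2 *
          (Ct p.1 p.2 * Ct q.1 q.2 + Ct p.1 q.1 * Ct p.2 q.2 + Ct p.1 q.2 * Ct p.2 q.1) =
          (W p.1 p.2 * W q.1 q.2) * (β ^ 2 *
          (∫ ω, φ p.1 ω * φ p.2 ω * φ q.1 ω * φ q.2 ω ∂P) -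
          (Ct p.1 p.2 * Ct q.1 q.2 + Ct p.1 q.1 * Ct p.2 q.2 + Ct p.1 q.2 * Ct p.2 q.1)) := by
        ring
      rw [e, abs_mul, abs_mul]
      have h6 := h2 p.1 p.2 q.1 q.2
      exact mul_le_mul (mul_le_mul (hN _ _) (hN _ _) (abs_nonneg _) hK0) h6 (abs_nonneg _)
        (by positivity)
    refine (Finset.sum_le_card_nsmul _ _ _ h5).trans ?_
    rw [nsmul_eq_mul, Finset.card_univ, Fintype.card_prod, Nat.cast_mul]
    exact mul_le_mul_of_nonneg_right h4 (by positivity)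
  refine (Finset.abs_sum_le_sum_abs _ _).trans ?_
  refine (Finset.sum_le_card_nsmul _ _ _ h3).trans ?_
  rw [nsmul_eq_mul, Finset.card_univ, Fintype.card_prod, Nat.cast_mul]
  calc (Fintype.card I : ℝ) * (Fintype.card I : ℝ) * (K * K * (K * K * ε)) ≤
        K * K * (K * K * (K * K * ε)) := mul_le_mul_of_nonneg_right h4 (by positivity)
    _ = K ^ 6 * ε := by ring

end main

section alg

variable {Λ : Type} [Fintype Λ] {n : ℕ}

/-- the tensor product of a matrix on the links and a matrix on the algebra -/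
def TW (N : Matrix Λ Λ ℝ) (m : Matrix (Fin n) (Fin n) ℝ) (i j : Λ × Fin n) : ℝ :=
  N i.1 j.1 * m i.2 j.2

/-- the covariance on pairs -/
def CT (n : ℕ) (C : Matrix Λ Λ ℝ) (i j : Λ × Fin n) : ℝ := if i.2 = j.2 then C i.1 j.1 else 0

theorem sum4 (F : (Λ × Fin n) × (Λ × Fin n) → ℝ) :
    ∑ p, F p = ∑ x, ∑ y, ∑ a, ∑ b, F ((x, a), (y, b)) := by
  rw [Fintype.sum_prod_type]
  simp only [Fintype.sum_prod_type]
  refine Finset.sum_congr rfl fun x _ => ?_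
  exact Finset.sum_comm

theorem EW (C N : Matrix Λ Λ ℝ) (m : Matrix (Fin n) (Fin n) ℝ) :
    ∑ p : (Λ × Fin n) × (Λ × Fin n), TW N m p.1 p.2 * CT n C p.1 p.2 =
      m.trace * ∑ p : Λ × Λ, N p.1 p.2 * C p.1 p.2 := by
  rw [sum4, Fintype.sum_prod_type, Finset.mul_sum]
  refine Finset.sum_congr rfl fun x _ => ?_
  rw [Finset.mul_sum]
  refine Finset.sum_congr rfl fun y _ => ?_
  simp only [TW, CT, mul_ite, mul_zero, Finset.sum_ite_eq, Finset.mem_univ, if_true]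
  simp only [Matrix.trace, Matrix.diag, Finset.sum_mul]
  refine Finset.sum_congr rfl fun a _ => ?_
  ring

theorem S2a (C B : Matrix Λ Λ ℝ) (k : Matrix (Fin n) (Fin n) ℝ)
    (p : (Λ × Fin n) × (Λ × Fin n)) :
    ∑ q : (Λ × Fin n) × (Λ × Fin n), TW B k p.1 p.2 * TW B k q.1 q.2 *
      (CT n C p.1 q.1 * CT n C p.2 q.2) =
      k p.1.2 p.2.2 ^ 2 * ∑ q : Λ × Λ, B p.1.1 p.2.1 * B q.1 q.2 * (C p.1.1 q.1 * C p.2.1 q.2) := by
  rw [sum4, Fintype.sum_prod_type, Finset.mul_sum]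
  refine Finset.sum_congr rfl fun z _ => ?_
  rw [Finset.mul_sum]
  refine Finset.sum_congr rfl fun w _ => ?_
  simp only [TW, CT, mul_ite, mul_zero, ite_mul, zero_mul, Finset.sum_ite_eq, Finset.mem_univ,
    if_true]
  ring

theorem S2b (k : Matrix (Fin n) (Fin n) ℝ) (G : Λ → Λ → ℝ) :
    ∑ p : (Λ × Fin n) × (Λ × Fin n), k p.1.2 p.2.2 ^ 2 * G p.1.1 p.2.1 =
      (∑ a, ∑ b, k a b ^ 2) * ∑ p : Λ × Λ, G p.1 p.2 := by
  rw [sum4, Fintype.sum_prod_type, Finset.mul_sum]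
  refine Finset.sum_congr rfl fun x _ => ?_
  rw [Finset.mul_sum]
  refine Finset.sum_congr rfl fun y _ => ?_
  simp only [Finset.sum_mul]

theorem S2c (C B : Matrix Λ Λ ℝ) (k : Matrix (Fin n) (Fin n) ℝ) :
    ∑ p : (Λ × Fin n) × (Λ × Fin n), ∑ q : (Λ × Fin n) × (Λ × Fin n),
      TW B k p.1 p.2 * TW B k q.1 q.2 * (CT n C p.1 q.1 * CT n C p.2 q.2) =
      (∑ a, ∑ b, k a b ^ 2) * ∑ p : Λ × Λ, ∑ q : Λ × Λ,
        B p.1 p.2 * B q.1 q.2 * (C p.1 q.1 * C p.2 q.2) := by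
  simp only [S2a]
  exact S2b k fun x y => ∑ q : Λ × Λ, B x y * B q.1 q.2 * (C x q.1 * C y q.2)

omit [Fintype Λ] in
theorem TW_symm (B : Matrix Λ Λ ℝ) (k : Matrix (Fin n) (Fin n) ℝ) (hB : Bᵀ = -B) (hk : kᵀ = -k)
    (i j : Λ × Fin n) : TW B k i j = TW B k j i := by
  have h1 : B i.1 j.1 = -B j.1 i.1 := by
    have h := congrFun (congrFun hB j.1) i.1
    simpa using h
  have h2 : k i.2 j.2 = -k j.2 i.2 := by
    have h := congrFun (congrFun hk j.2) i.2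
    simpa using h
  simp only [TW]
  rw [h1, h2]
  ring

theorem S3 (C B : Matrix Λ Λ ℝ) (k : Matrix (Fin n) (Fin n) ℝ) (hB : Bᵀ = -B) (hk : kᵀ = -k) :
    ∑ p : (Λ × Fin n) × (Λ × Fin n), ∑ q : (Λ × Fin n) × (Λ × Fin n),
      TW B k p.1 p.2 * TW B k q.1 q.2 * (CT n C p.1 q.2 * CT n C p.2 q.1) =
    ∑ p : (Λ × Fin n) × (Λ × Fin n), ∑ q : (Λ × Fin n) × (Λ × Fin n),
      TW B k p.1 p.2 * TW B k q.1 q.2 * (CT n C p.1 q.1 * CT n C p.2 q.2) := by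
  refine Finset.sum_congr rfl fun p _ => ?_
  refine (Equiv.prodComm (Λ × Fin n) (Λ × Fin n)).sum_comp (fun q =>
    TW B k p.1 p.2 * TW B k q.1 q.2 * (CT n C p.1 q.1 * CT n C p.2 q.2)) |>.symm.trans ?_ |>.symm
  refine Finset.sum_congr rfl fun q _ => ?_
  simp only [Equiv.prodComm_apply, Prod.fst_swap, Prod.snd_swap]
  rw [TW_symm B k hB hk q.2 q.1]

theorem tr0 (k : Matrix (Fin n) (Fin n) ℝ) (hk : kᵀ = -k) : k.trace = 0 := by
  have h := Matrix.trace_transpose k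
  rw [hk, Matrix.trace_neg] at h
  linarith

theorem S4 (C B : Matrix Λ Λ ℝ) (k : Matrix (Fin n) (Fin n) ℝ) (hC : C.IsSymm) (hB : Bᵀ = -B)
    (hk : kᵀ = -k) :
    ∑ p : (Λ × Fin n) × (Λ × Fin n), ∑ q : (Λ × Fin n) × (Λ × Fin n),
      TW B k p.1 p.2 * TW B k q.1 q.2 * (CT n C p.1 p.2 * CT n C q.1 q.2 +
        CT n C p.1 q.1 * CT n C p.2 q.2 + CT n C p.1 q.2 * CT n C p.2 q.1) =
      -(2 * (∑ a, ∑ b, k a b ^ 2) * (C * B * C * B).trace) := by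
  have h1 : ∑ p : (Λ × Fin n) × (Λ × Fin n), ∑ q : (Λ × Fin n) × (Λ × Fin n),
      TW B k p.1 p.2 * TW B k q.1 q.2 * (CT n C p.1 p.2 * CT n C q.1 q.2) = 0 := by
    have e : ∀ p q : (Λ × Fin n) × (Λ × Fin n),
        TW B k p.1 p.2 * TW B k q.1 q.2 * (CT n C p.1 p.2 * CT n C q.1 q.2) =
        (TW B k p.1 p.2 * CT n C p.1 p.2) * (TW B k q.1 q.2 * CT n C q.1 q.2) := by
      intro p q
      ring
    simp only [e]
    rw [← Finset.sum_mul_sum, EW, tr0 k hk]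
    ring
  have e2 : ∀ p q : (Λ × Fin n) × (Λ × Fin n),
      TW B k p.1 p.2 * TW B k q.1 q.2 * (CT n C p.1 p.2 * CT n C q.1 q.2 +
        CT n C p.1 q.1 * CT n C p.2 q.2 + CT n C p.1 q.2 * CT n C p.2 q.1) =
      TW B k p.1 p.2 * TW B k q.1 q.2 * (CT n C p.1 p.2 * CT n C q.1 q.2) +
      TW B k p.1 p.2 * TW B k q.1 q.2 * (CT n C p.1 q.1 * CT n C p.2 q.2) +
      TW B k p.1 p.2 * TW B k q.1 q.2 * (CT n C p.1 q.2 * CT n C p.2 q.1) := by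
    intro p q
    ring
  simp only [e2, Finset.sum_add_distrib]
  rw [h1, S3 C B k hB hk, S2c, tr4 C B hC hB]
  ring

end alg

theorem tlp : S_LP := by
  intro Ω _ P _ Λ _ _ n φ f e1 e2 A B C R k g h s0 β K M p ε hK hβ hM hp hε hε1 hφ he1 he2 hf
    hφf hfK hcard hn hC hB hk hkgh hb hPp hMε h2 h4 hE1 hE2
  have hK0 : 0 ≤ K := by linarith
  have hβ0 : 0 ≤ β := by linarith
  -- f is nonnegative
  have hf0 : ∀ ω, 0 ≤ f ω := by
    intro ω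
    have h := (abs_nonneg _).trans (hE1 ω)
    by_contra hneg
    push Not at hneg
    have h3 : f ω ^ 3 < 0 := by
      have : f ω ^ 3 = f ω * f ω ^ 2 := by ring
      have hne : f ω ≠ 0 := hneg.ne
      rw [this]
      exact mul_neg_of_neg_of_pos hneg (by positivity)
    nlinarith
  have hK2 : 1 ≤ K ^ 2 := one_le_pow₀ hK
  have hKK2 : K ≤ K ^ 2 := by nlinarith
  have hφK : ∀ i ω, |φ i ω| ≤ K ^ 2 := fun i ω => ((hφf i ω).trans (hfK ω)).trans hKK2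
  have hcardI : (Fintype.card (Λ × Fin n) : ℝ) ≤ K ^ 2 := by
    rw [Fintype.card_prod, Fintype.card_fin, Nat.cast_mul, sq]
    exact mul_le_mul hcard hn (Nat.cast_nonneg _) hK0
  -- moments of f
  have hm3 : β * ∫ ω, f ω ^ 3 ∂P ≤ K ^ 3 * ε := by
    have h := mom f hf K M p hK0 hM hf0 hfK hPp 3
    have hK3 : 1 ≤ K ^ 3 := one_le_pow₀ hK
    have h5 : β * M ^ 3 + β * p ≤ ε := by
      have : 0 ≤ β ^ 2 * M ^ 5 := by positivity
      have : 0 ≤ β ^ 2 * p := by positivity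
      nlinarith
    calc β * ∫ ω, f ω ^ 3 ∂P ≤ β * (M ^ 3 + K ^ 3 * p) := mul_le_mul_of_nonneg_left h hβ0
      _ = 1 * (β * M ^ 3) + K ^ 3 * (β * p) := by ring
      _ ≤ K ^ 3 * (β * M ^ 3) + K ^ 3 * (β * p) := by
          have := mul_le_mul_of_nonneg_right hK3 (by positivity : 0 ≤ β * M ^ 3)
          linarith
      _ = K ^ 3 * (β * M ^ 3 + β * p) := by ring
      _ ≤ K ^ 3 * ε := mul_le_mul_of_nonneg_left h5 (by positivity)
  have hm5 : β ^ 2 * ∫ ω, f ω ^ 5 ∂P ≤ K ^ 5 * ε := by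
    have h := mom f hf K M p hK0 hM hf0 hfK hPp 5
    have hK5 : 1 ≤ K ^ 5 := one_le_pow₀ hK
    have h5 : β ^ 2 * M ^ 5 + β ^ 2 * p ≤ ε := by
      have : 0 ≤ β * M ^ 3 := by positivity
      have : 0 ≤ β * p := by positivity
      nlinarith
    calc β ^ 2 * ∫ ω, f ω ^ 5 ∂P ≤ β ^ 2 * (M ^ 5 + K ^ 5 * p) :=
          mul_le_mul_of_nonneg_left h (by positivity)
      _ = 1 * (β ^ 2 * M ^ 5) + K ^ 5 * (β ^ 2 * p) := by ring
      _ ≤ K ^ 5 * (β ^ 2 * M ^ 5) + K ^ 5 * (β ^ 2 * p) := by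
          have := mul_le_mul_of_nonneg_right hK5 (by positivity : 0 ≤ β ^ 2 * M ^ 5)
          linarith
      _ = K ^ 5 * (β ^ 2 * M ^ 5 + β ^ 2 * p) := by ring
      _ ≤ K ^ 5 * ε := mul_le_mul_of_nonneg_left h5 (by positivity)
  have hfj : ∀ j : ℕ, Integrable (fun ω => f ω ^ j) P := fun j =>
    int_bd (hf.pow_const j) (K ^ j) fun ω => by
      rw [abs_of_nonneg (pow_nonneg (hf0 ω) j)]
      exact pow_le_pow_left₀ (hf0 ω) (hfK ω) j
  -- the quadratic forms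
  have hTW : ∀ (N : Matrix Λ Λ ℝ) (m : Matrix (Fin n) (Fin n) ℝ), (∀ i j, |N i j| ≤ K) →
      (∀ i j, |m i j| ≤ K) → ∀ i j, |TW N m i j| ≤ K ^ 2 := by
    intro N m hN hm i j
    unfold TW
    rw [abs_mul, sq]
    exact mul_le_mul (hN _ _) (hm _ _) (abs_nonneg _) hK0
  have hQint : ∀ (W : Λ × Fin n → Λ × Fin n → ℝ), (∀ i j, |W i j| ≤ K ^ 2) →
      Integrable (QQ φ W) P := by
    intro W hW
    refine int_bd (QQ_meas φ hφ W) ((K ^ 2) ^ 3 * K ^ 2) fun ω => ?_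
    refine (QQ_le φ f hφf W (K ^ 2) hK2 hcardI hW ω).trans ?_
    exact mul_le_mul_of_nonneg_left (pow_le_pow_left₀ (hf0 ω) (hfK ω) 2) (by positivity)
  have hA : ∀ i j, |A i j| ≤ K := fun i j => (hb i j).1
  have hBb : ∀ i j, |B i j| ≤ K := fun i j => (hb i j).2.1
  have hR : ∀ i j, |R i j| ≤ K := fun i j => (hb i j).2.2.2
  have hkb : ∀ i j, |k i j| ≤ K := fun i j => (hkgh i j).1
  have hgb : ∀ i j, |g i j| ≤ K := fun i j => (hkgh i j).2.1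
  have hhb : ∀ i j, |h i j| ≤ K := fun i j => (hkgh i j).2.2
  have hQe : ∀ (N : Matrix Λ Λ ℝ) (m : Matrix (Fin n) (Fin n) ℝ) (ω : Ω), QQ φ (TW N m) ω =
      ∑ x, ∑ y, ∑ a, ∑ b, N x y * m a b * φ (x, a) ω * φ (y, b) ω := by
    intro N m ω
    unfold QQ
    rw [sum4]
    refine Finset.sum_congr rfl fun x _ => Finset.sum_congr rfl fun y _ =>
      Finset.sum_congr rfl fun a _ => Finset.sum_congr rfl fun b _ => ?_
    simp only [TW]
    ring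
  have hBk := hTW B k hBb hkb
  have hAg := hTW A g hA hgb
  have hRh := hTW R h hR hhb
  -- rewriting of the hypotheses
  have hE1' : ∀ ω, |e1 ω - QQ φ (TW B k) ω| ≤ K * f ω ^ 3 := by
    intro ω
    rw [hQe]
    exact hE1 ω
  have hE2' : ∀ ω, |e2 ω - s0 - (1 / 2) * QQ φ (TW A g) ω +
      (1 / 8) * QQ φ (TW R h) ω| ≤ K * f ω ^ 3 := by
    intro ω
    rw [hQe, hQe]
    exact hE2 ω
  have h2' : ∀ x y : Λ × Fin n, |β * ∫ ω, φ x ω * φ y ω ∂P - CT n C x y| ≤ ε := h2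
  have h4' : ∀ x y z w : Λ × Fin n, |β ^ 2 * ∫ ω, φ x ω * φ y ω * φ z ω * φ w ω ∂P -
      (CT n C x y * CT n C z w + CT n C x z * CT n C y w + CT n C x w * CT n C y z)| ≤ ε := h4
  set q : Ω → ℝ := QQ φ (TW B k) with hq
  have hqint : Integrable q P := hQint _ hBk
  have hqm : Measurable q := QQ_meas φ hφ _
  have hqle : ∀ ω, |q ω| ≤ (K ^ 2) ^ 3 * f ω ^ 2 := QQ_le φ f hφf _ (K ^ 2) hK2 hcardI hBk
  set r1 : Ω → ℝ := fun ω => e1 ω - q ω with hr1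
  have hr1m : Measurable r1 := he1.sub hqm
  have hr1i : Integrable r1 P := int_bd hr1m (K * K ^ 3) fun ω =>
    (hE1' ω).trans (mul_le_mul_of_nonneg_left (pow_le_pow_left₀ (hf0 ω) (hfK ω) 3) hK0)
  have hr1E : |β * ∫ ω, r1 ω ∂P| ≤ K ^ 4 * ε := by
    have h := abs_int_le (P := P) r1 (fun ω => K * f ω ^ 3) ((hfj 3).const_mul K) hE1'
    rw [integral_const_mul] at h
    rw [abs_mul, abs_of_nonneg hβ0]
    calc β * |∫ ω, r1 ω ∂P| ≤ β * (K * ∫ ω, f ω ^ 3 ∂P) := mul_le_mul_of_nonneg_left h hβ0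
      _ = K * (β * ∫ ω, f ω ^ 3 ∂P) := by ring
      _ ≤ K * (K ^ 3 * ε) := mul_le_mul_of_nonneg_left hm3 hK0
      _ = K ^ 4 * ε := by ring
  -- the mean of e1
  have hI1 : β * ∫ ω, e1 ω ∂P = β * (∫ ω, r1 ω ∂P) + β * ∫ ω, q ω ∂P := by
    have e : ∫ ω, e1 ω ∂P = ∫ ω, (r1 ω + q ω) ∂P := by
      congr 1
      funext ω
      simp only [hr1]
      ring
    rw [e, integral_add hr1i hqint]
    ring
  have hqE : |β * ∫ ω, q ω ∂P| ≤ K ^ 6 * ε := by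
    have h := QQ_E (P := P) φ hφ (K ^ 2) β ε hK2 hε hφK hcardI (CT n C) _ hBk h2'
    rw [EW, tr0 k hk, zero_mul, sub_zero] at h
    calc |β * ∫ ω, q ω ∂P| ≤ (K ^ 2) ^ 3 * ε := h
      _ = K ^ 6 * ε := by ring
  have hI1le : |β * ∫ ω, e1 ω ∂P| ≤ 2 * K ^ 6 * ε := by
    rw [hI1]
    have h := abs_add_le (β * (∫ ω, r1 ω ∂P)) (β * ∫ ω, q ω ∂P)
    have h34 : K ^ 4 * ε ≤ K ^ 6 * ε :=
      mul_le_mul_of_nonneg_right (pow_le_pow_right₀ hK (by norm_num)) hε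
    linarith
  have hI1sq : (β * ∫ ω, e1 ω ∂P) ^ 2 ≤ 4 * (K ^ 12 * ε) := by
    have h := pow_le_pow_left₀ (abs_nonneg _) hI1le 2
    rw [sq_abs] at h
    have hee : ε * ε ≤ ε := by nlinarith
    calc (β * ∫ ω, e1 ω ∂P) ^ 2 ≤ (2 * K ^ 6 * ε) ^ 2 := h
      _ = 4 * K ^ 12 * (ε * ε) := by ring
      _ ≤ 4 * K ^ 12 * ε := mul_le_mul_of_nonneg_left hee (by positivity)
      _ = 4 * (K ^ 12 * ε) := by ring
  -- the second moment of e1
  have hq2i : Integrable (fun ω => q ω ^ 2) P := by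
    refine int_bd (hqm.pow_const 2) (((K ^ 2) ^ 3 * K ^ 2) ^ 2) fun ω => ?_
    rw [abs_pow]
    refine pow_le_pow_left₀ (abs_nonneg _) ((hqle ω).trans ?_) 2
    exact mul_le_mul_of_nonneg_left (pow_le_pow_left₀ (hf0 ω) (hfK ω) 2) (by positivity)
  have hdiff : ∀ ω, |e1 ω ^ 2 - q ω ^ 2| ≤ 3 * K ^ 7 * f ω ^ 5 := by
    intro ω
    have hrω : |r1 ω| ≤ K * f ω ^ 3 := hE1' ω
    have hqω := hqle ω
    have e : e1 ω ^ 2 - q ω ^ 2 = r1 ω * (r1 ω + 2 * q ω) := by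
      simp only [hr1]; ring
    rw [e, abs_mul]
    have h0 := hf0 ω
    have hk := hfK ω
    have h5 : |r1 ω + 2 * q ω| ≤ 3 * K ^ 6 * f ω ^ 2 := by
      have h6 := abs_add_le (r1 ω) (2 * q ω)
      rw [abs_mul, abs_of_pos (by norm_num : (0:ℝ) < 2)] at h6
      have h7 : K * f ω ^ 3 ≤ K ^ 6 * f ω ^ 2 := by
        calc K * f ω ^ 3 = K * f ω ^ 2 * f ω := by ring
          _ ≤ K * f ω ^ 2 * K := mul_le_mul_of_nonneg_left hk (by positivity)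
          _ = K ^ 2 * f ω ^ 2 := by ring
          _ ≤ K ^ 6 * f ω ^ 2 :=
            mul_le_mul_of_nonneg_right (pow_le_pow_right₀ hK (by norm_num)) (by positivity)
      have h8 : (K ^ 2) ^ 3 * f ω ^ 2 = K ^ 6 * f ω ^ 2 := by ring
      rw [h8] at hqω
      linarith
    calc |r1 ω| * |r1 ω + 2 * q ω| ≤ (K * f ω ^ 3) * (3 * K ^ 6 * f ω ^ 2) :=
          mul_le_mul hrω h5 (abs_nonneg _) (by positivity)
      _ = 3 * K ^ 7 * f ω ^ 5 := by ring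
  have hdm : Measurable (fun ω => e1 ω ^ 2 - q ω ^ 2) := (he1.pow_const 2).sub (hqm.pow_const 2)
  have hdi : Integrable (fun ω => e1 ω ^ 2 - q ω ^ 2) P :=
    int_bd hdm (3 * K ^ 7 * K ^ 5) fun ω => (hdiff ω).trans
      (mul_le_mul_of_nonneg_left (pow_le_pow_left₀ (hf0 ω) (hfK ω) 5) (by positivity))
  have hI2 : ∫ ω, e1 ω ^ 2 ∂P = (∫ ω, (e1 ω ^ 2 - q ω ^ 2) ∂P) + ∫ ω, q ω ^ 2 ∂P := by
    rw [← integral_add hdi hq2i]
    congr 1
    funext ω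
    ring
  have hI2d : |β ^ 2 * ∫ ω, (e1 ω ^ 2 - q ω ^ 2) ∂P| ≤ 3 * (K ^ 12 * ε) := by
    have h := abs_int_le (P := P) _ (fun ω => 3 * K ^ 7 * f ω ^ 5) ((hfj 5).const_mul _) hdiff
    rw [integral_const_mul] at h
    rw [abs_mul, abs_of_nonneg (by positivity : 0 ≤ β ^ 2)]
    calc β ^ 2 * |∫ ω, (e1 ω ^ 2 - q ω ^ 2) ∂P| ≤ β ^ 2 * (3 * K ^ 7 * ∫ ω, f ω ^ 5 ∂P) :=
          mul_le_mul_of_nonneg_left h (by positivity)
      _ = 3 * K ^ 7 * (β ^ 2 * ∫ ω, f ω ^ 5 ∂P) := by ring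
      _ ≤ 3 * K ^ 7 * (K ^ 5 * ε) := mul_le_mul_of_nonneg_left hm5 (by positivity)
      _ = 3 * (K ^ 12 * ε) := by ring
  have hq4 : |β ^ 2 * ∫ ω, q ω ^ 2 ∂P -
      -(2 * (∑ a, ∑ b, k a b ^ 2) * (C * B * C * B).trace)| ≤ K ^ 12 * ε := by
    have h := QQ_E4 (P := P) φ hφ (K ^ 2) β ε hK2 hε hφK hcardI (CT n C) _ hBk h4'
    rw [S4 C B k hC hB hk] at h
    calc |β ^ 2 * ∫ ω, q ω ^ 2 ∂P -
        -(2 * (∑ a, ∑ b, k a b ^ 2) * (C * B * C * B).trace)| ≤ (K ^ 2) ^ 6 * ε := h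
      _ = K ^ 12 * ε := by ring
  -- the mean of e2
  set r2 : Ω → ℝ := fun ω => e2 ω - s0 - (1 / 2) * QQ φ (TW A g) ω +
      (1 / 8) * QQ φ (TW R h) ω with hr2
  have hr2m : Measurable r2 :=
    ((he2.sub_const s0).sub ((QQ_meas φ hφ (TW A g)).const_mul _)).add
      ((QQ_meas φ hφ (TW R h)).const_mul _)
  have hr2i : Integrable r2 P := int_bd hr2m (K * K ^ 3) fun ω =>
    (hE2' ω).trans (mul_le_mul_of_nonneg_left (pow_le_pow_left₀ (hf0 ω) (hfK ω) 3) hK0)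
  have hr2E : |β * ∫ ω, r2 ω ∂P| ≤ K ^ 4 * ε := by
    have h := abs_int_le (P := P) r2 (fun ω => K * f ω ^ 3) ((hfj 3).const_mul K) hE2'
    rw [integral_const_mul] at h
    rw [abs_mul, abs_of_nonneg hβ0]
    calc β * |∫ ω, r2 ω ∂P| ≤ β * (K * ∫ ω, f ω ^ 3 ∂P) := mul_le_mul_of_nonneg_left h hβ0
      _ = K * (β * ∫ ω, f ω ^ 3 ∂P) := by ring
      _ ≤ K * (K ^ 3 * ε) := mul_le_mul_of_nonneg_left hm3 hK0
      _ = K ^ 4 * ε := by ring
  have hA0 := hQint _ hAg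
  have hR2 := hQint _ hRh
  have hI3 : β * ∫ ω, e2 ω ∂P = β * (∫ ω, r2 ω ∂P) + β * s0 +
      (1 / 2) * (β * ∫ ω, QQ φ (TW A g) ω ∂P) -
      (1 / 8) * (β * ∫ ω, QQ φ (TW R h) ω ∂P) := by
    have e : ∫ ω, e2 ω ∂P = ∫ ω, (((r2 ω + s0) + (1 / 2) * QQ φ (TW A g) ω) -
        (1 / 8) * QQ φ (TW R h) ω) ∂P := by
      congr 1
      funext ω
      simp only [hr2]
      ring
    have i1 : Integrable (fun ω => r2 ω + s0) P := hr2i.add (integrable_const s0)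
    have i2 : Integrable (fun ω => (1 / 2) * QQ φ (TW A g) ω) P := hA0.const_mul _
    have i3 : Integrable (fun ω => (1 / 8) * QQ φ (TW R h) ω) P := hR2.const_mul _
    have i4 : Integrable (fun ω => (r2 ω + s0) + (1 / 2) * QQ φ (TW A g) ω) P := i1.add i2
    rw [e, integral_sub i4 i3, integral_add i1 i2, integral_add hr2i (integrable_const s0),
      integral_const_mul, integral_const_mul]
    simp only [integral_const, probReal_univ, smul_eq_mul, one_mul]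
    ring
  have hTA : |β * ∫ ω, QQ φ (TW A g) ω ∂P - g.trace * (C * A).trace| ≤ K ^ 6 * ε := by
    have h := QQ_E (P := P) φ hφ (K ^ 2) β ε hK2 hε hφK hcardI (CT n C) _ hAg h2'
    rw [EW, ← tr2 C A hC] at h
    calc |β * ∫ ω, QQ φ (TW A g) ω ∂P - g.trace * (C * A).trace| ≤ (K ^ 2) ^ 3 * ε := h
      _ = K ^ 6 * ε := by ring
  have hTR : |β * ∫ ω, QQ φ (TW R h) ω ∂P - h.trace * (C * R).trace| ≤ K ^ 6 * ε := by
    have h' := QQ_E (P := P) φ hφ (K ^ 2) β ε hK2 hε hφK hcardI (CT n C) _ hRh h2'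
    rw [EW, ← tr2 C R hC] at h'
    calc |β * ∫ ω, QQ φ (TW R h) ω ∂P - h.trace * (C * R).trace| ≤ (K ^ 2) ^ 3 * ε := h'
      _ = K ^ 6 * ε := by ring
  have hfin : β * ∫ ω, e2 ω ∂P - β ^ 2 * (∫ ω, e1 ω ^ 2 ∂P - (∫ ω, e1 ω ∂P) ^ 2) -
      (β * s0 + (1 / 2) * g.trace * (C * A).trace +
        2 * (∑ a, ∑ b, k a b ^ 2) * (C * B * C * B).trace - (1 / 8) * h.trace * (C * R).trace) =
      β * (∫ ω, r2 ω ∂P) + (1 / 2) * (β * ∫ ω, QQ φ (TW A g) ω ∂P - g.trace * (C * A).trace) -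
      (1 / 8) * (β * ∫ ω, QQ φ (TW R h) ω ∂P - h.trace * (C * R).trace) -
      β ^ 2 * ∫ ω, (e1 ω ^ 2 - q ω ^ 2) ∂P - (β ^ 2 * ∫ ω, q ω ^ 2 ∂P -
        -(2 * (∑ a, ∑ b, k a b ^ 2) * (C * B * C * B).trace)) +
      (β * ∫ ω, e1 ω ∂P) ^ 2 := by
    rw [hI3, hI2]
    ring
  rw [hfin]
  set X : ℝ := K ^ 40 * ε with hX
  have hX0 : 0 ≤ X := by positivity
  have hpw : ∀ j : ℕ, j ≤ 40 → K ^ j * ε ≤ X := fun j hj =>
    mul_le_mul_of_nonneg_right (pow_le_pow_right₀ hK hj) hε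
  have p4 := hpw 4 (by norm_num)
  have p6 := hpw 6 (by norm_num)
  have p12 := hpw 12 (by norm_num)
  have hsq0 : 0 ≤ (β * ∫ ω, e1 ω ∂P) ^ 2 := sq_nonneg _
  rw [abs_le] at hr2E hTA hTR hI2d hq4
  have hgoal : 1000 * K ^ 40 * ε = 1000 * X := by rw [hX]; ring
  rw [hgoal, abs_le]
  constructor <;> linarith [hr2E.1, hr2E.2, hTA.1, hTA.2, hTR.1, hTR.2, hI2d.1,
    hI2d.2, hq4.1, hq4.2]

end

end Pool.Agent.H737.AG
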